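import Mathlib
import Pool.Agent.Helper73.SM.GoalsK
import Pool.Agent.Helper57.SM.BIN

/-!
# Project KR (MP_c307ca_nt), packet KCZ
-/

set_option autoImplicit false

namespace Pool.Agent.Helper31.SM

open Finset Pool.Agent.Helper73.SM
open Pool.Agent.Helper57.SM (choose_mul_fact)

theorem ck_mul (hINT : StmtINT) (k : ℕ) (s : ℤ) (n j : ℕ) : ck k s n j * (j.factorial : ℤ)
    = (k : ℤ) ^ j * ∏ i ∈ range j, ((k : ℤ) * (n : ℤ) + s - (k : ℤ) * (i : ℤ)) := by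
  have h := hINT ((k : ℤ) * (n : ℤ) + s) k j
  have e : ∏ i ∈ range j, ((k : ℤ) * (n : ℤ) + s - (i : ℤ) * (k : ℤ))
      = ∏ i ∈ range j, ((k : ℤ) * (n : ℤ) + s - (k : ℤ) * (i : ℤ)) := by
    refine prod_congr rfl fun i _ => ?_
    ring
  rw [e] at h
  unfold ck
  exact Int.ediv_mul_cancel h

theorem ck_cast (hINT : StmtINT) (k : ℕ) (s : ℤ) (n j : ℕ) (hk : 1 ≤ k) :
    (ck k s n j : ℝ) = (k : ℝ) ^ (2 * j) * Ring.choose ((n : ℝ) + (s : ℝ) / (k : ℝ)) j := by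
  have hk0 : (k : ℝ) ≠ 0 := by
    have : (1 : ℝ) ≤ k := by exact_mod_cast hk
    linarith
  have h1 := congrArg (fun z : ℤ => (z : ℝ)) (ck_mul hINT k s n j)
  push_cast at h1
  have h2 := choose_mul_fact ((n : ℝ) + (s : ℝ) / (k : ℝ)) j
  have hf : (j.factorial : ℝ) ≠ 0 := by exact_mod_cast j.factorial_ne_zero
  apply mul_right_cancel₀ hf
  rw [h1, mul_assoc, h2]
  have h9 : (k : ℝ) ^ (2 * j) = (k : ℝ) ^ j * (k : ℝ) ^ j := by rw [two_mul, pow_add]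
  rw [h9, mul_assoc]
  congr 1
  have h3 : (k : ℝ) ^ j = ∏ _i ∈ range j, (k : ℝ) := by simp
  rw [h3, ← prod_mul_distrib]
  refine prod_congr rfl fun i _ => ?_
  field_simp

theorem PK_cast (hINT : StmtINT) (k : ℕ) (s : ℤ) (n N : ℕ) (hk : 1 ≤ k) (hN : 1 ≤ N) :
    (PK k s n (N : ℤ) : ℝ) = ((k : ℝ) ^ 2 * (N : ℝ)) ^ n * ∑ j ∈ range (n + 1),
      Ring.choose ((n : ℝ) + (s : ℝ) / (k : ℝ)) j * ((2 * n - j).choose n : ℝ) *
        (1 / (N : ℝ)) ^ j := by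
  unfold PK
  push_cast
  rw [mul_sum]
  refine sum_congr rfl fun j hj => ?_
  rw [ck_cast hINT k s n j hk]
  have hN0 : (N : ℝ) ≠ 0 := by
    have : (1 : ℝ) ≤ N := by exact_mod_cast hN
    linarith
  have hjn : j ≤ n := Nat.lt_succ_iff.1 (mem_range.1 hj)
  have h1 : ((k : ℝ) ^ 2 * (N : ℝ)) ^ n =
      ((k : ℝ) ^ 2 * (N : ℝ)) ^ (n - j) * ((k : ℝ) ^ 2 * (N : ℝ)) ^ j := by
    rw [← pow_add, Nat.sub_add_cancel hjn]
  have h2 : ((k : ℝ) ^ 2 * (N : ℝ)) ^ j * (1 / (N : ℝ)) ^ j = (k : ℝ) ^ (2 * j) := by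
    rw [← mul_pow, pow_mul]
    congr 1
    field_simp
  rw [h1]
  calc (k : ℝ) ^ (2 * j) * Ring.choose ((n : ℝ) + (s : ℝ) / (k : ℝ)) j *
          ((2 * n - j).choose n : ℝ) * ((k : ℝ) ^ 2 * (N : ℝ)) ^ (n - j)
      = ((k : ℝ) ^ 2 * (N : ℝ)) ^ (n - j) *
          (((k : ℝ) ^ 2 * (N : ℝ)) ^ j * (1 / (N : ℝ)) ^ j)
        * (Ring.choose ((n : ℝ) + (s : ℝ) / (k : ℝ)) j * ((2 * n - j).choose n : ℝ)) := by
        rw [h2]; ring
    _ = _ := by ring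

/-- **Packet KCZ.** -/
theorem goalKCZ (hINT : StmtINT) : StmtKCZ where
  mul := ck_mul hINT
  cast := ck_cast hINT
  pa := fun k m n N hk hN => by
    rw [PK_cast hINT k m n N hk hN]
    unfold PA
    push_cast
    rfl
  pb := fun k m n N hk hN => by
    rw [PK_cast hINT k (-(m : ℤ)) n N hk hN]
    unfold PB
    congr 1
    refine sum_congr rfl fun j _ => ?_
    have : (n : ℝ) + ((-(m : ℤ) : ℤ) : ℝ) / (k : ℝ) = (n : ℝ) - (m : ℝ) / (k : ℝ) := by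
      push_cast; ring
    rw [this]

end Pool.Agent.Helper31.SM
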